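import Pool.Agent.helper37.NS.Final

/-!
# Cyclic numbers `n ^ 2 + 1` between consecutive powers

For every `k ≥ 3`, almost all intervals `(m ^ k, (m + 1) ^ k)` contain at least
`m ^ (k / 2 - 1) / (log m) ^ (1 / 500)` cyclic numbers of the form `n ^ 2 + 1`.
-/

set_option autoImplicit false

namespace Pool.Agent.Results.MP_36f400_nt.AlmostAllIntervals

open Filter

/-- Let `k ≥ 3`. For all large `N`, at most `N / (log N) ^ (1 / 25)` of the `m ≤ N` are such that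
fewer than `m ^ (k / 2 - 1) / (log m) ^ (1 / 500)` numbers `c = n ^ 2 + 1`, `n ≥ 1`, with
`gcd(c, φ(c)) = 1` lie strictly between `m ^ k` and `(m + 1) ^ k`. -/
theorem result (k : ℕ) (hk : 3 ≤ k) :
    ∀ᶠ N : ℕ in atTop,
      (({m : ℕ | 1 ≤ m ∧ m ≤ N ∧
          (({c : ℕ | (∃ n : ℕ, 1 ≤ n ∧ c = n ^ 2 + 1) ∧ Nat.Coprime c (Nat.totient c) ∧
              m ^ k < c ∧ c < (m + 1) ^ k}.ncard : ℕ) : ℝ) <
            (m : ℝ) ^ ((k : ℝ) / 2 - 1) / (Real.log m) ^ (1 / 500 : ℝ)}.ncard : ℕ) : ℝ) ≤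
        (N : ℝ) / (Real.log N) ^ (1 / 25 : ℝ) := by
  filter_upwards [NSC.all_N hk] with N hN
  refine le_trans (le_of_eq ?_) hN
  congr 2
  ext m
  simp only [Set.mem_ofPred_eq, NSC.exc, NSC.nsc]
  tauto

end Pool.Agent.Results.MP_36f400_nt.AlmostAllIntervals
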